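import Pool.Agent.Q247.SY.Stm

/-!
# SY-ABS: the combinatorial core
-/

set_option autoImplicit false

namespace Q65.SY

open Q247.SY

section
variable {G T : Type} {n : ℕ}

/-- the sum of the absolute values -/
noncomputable def N1 (p : T →₀ ℝ) : ℝ := p.sum (fun _ x => |x|)

theorem N1_eq (p : T →₀ ℝ) (s : Finset T) (h : p.support ⊆ s) : N1 p = ∑ t ∈ s, |p t| := by
  unfold N1
  rw [Finsupp.sum]
  apply Finset.sum_subset h
  intro x _ hx
  rw [Finsupp.notMem_support_iff] at hx
  rw [hx, abs_zero]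

theorem N1_nonneg (p : T →₀ ℝ) : 0 ≤ N1 p := Finset.sum_nonneg (fun _ _ => abs_nonneg _)

theorem N1_add (p q : T →₀ ℝ) : N1 (p + q) ≤ N1 p + N1 q := by
  classical
  have h0 : (p + q).support ⊆ p.support ∪ q.support := Finsupp.support_add
  rw [N1_eq (p + q) _ h0, N1_eq p _ (Finset.subset_union_left (s₂ := q.support)),
    N1_eq q _ (Finset.subset_union_right (s₁ := p.support)), ← Finset.sum_add_distrib]
  apply Finset.sum_le_sum
  intro t _
  rw [Finsupp.add_apply]
  exact abs_add_le _ _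

theorem N1_smul (c : ℝ) (p : T →₀ ℝ) : N1 (c • p) = |c| * N1 p := by
  rw [N1_eq (c • p) p.support Finsupp.support_smul, N1_eq p p.support (Finset.Subset.refl _), Finset.mul_sum]
  apply Finset.sum_congr rfl
  intro t _
  rw [Finsupp.smul_apply, smul_eq_mul, abs_mul]

theorem N1_zero : N1 (0 : T →₀ ℝ) = 0 := by
  unfold N1
  simp

theorem N1_single (t : T) : N1 (Finsupp.single t (1 : ℝ)) = 1 := by
  unfold N1
  rw [Finsupp.sum_single_index (by simp)]
  simp

theorem N1_sum {ι : Type} (s : Finset ι) (f : ι → T →₀ ℝ) : N1 (∑ i ∈ s, f i) ≤ ∑ i ∈ s, N1 (f i) := by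
  classical
  induction s using Finset.induction_on with
  | empty => simp [N1_zero]
  | insert a s ha ih =>
    rw [Finset.sum_insert ha, Finset.sum_insert ha]
    exact (N1_add _ _).trans (by linarith)

theorem abs_le_N1 (p : T →₀ ℝ) (t : T) : |p t| ≤ N1 p := by
  classical
  by_cases h : t ∈ p.support
  · exact Finset.single_le_sum (f := fun t => |p t|) (fun _ _ => abs_nonneg _) h
  · rw [Finsupp.notMem_support_iff] at h
    rw [h, abs_zero]
    exact N1_nonneg p

theorem TV_eq (p q : T →₀ ℝ) : TV p q = N1 (p - q) := rfl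

/-- the mass of a tuple -/
noncomputable def mass (u : Fin n → T →₀ ℝ) : ℝ := ∑ i, N1 (u i)

theorem mass_nonneg (u : Fin n → T →₀ ℝ) : 0 ≤ mass u := Finset.sum_nonneg (fun _ _ => N1_nonneg _)

theorem mass_sum {ι : Type} (s : Finset ι) (f : ι → Fin n → T →₀ ℝ) : mass (∑ i ∈ s, f i) ≤ ∑ i ∈ s, mass (f i) := by
  unfold mass
  rw [Finset.sum_comm]
  apply Finset.sum_le_sum
  intro i _
  rw [Finset.sum_apply]
  exact N1_sum s (fun j => f j i)

theorem mass_smul (c : ℝ) (u : Fin n → T →₀ ℝ) : mass (c • u) = |c| * mass u := by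
  unfold mass
  rw [Finset.mul_sum]
  apply Finset.sum_congr rfl
  intro i _
  rw [Pi.smul_apply, N1_smul]

/-- the marginals -/
noncomputable def Phi (X : G → Fin n → T) : (G →₀ ℝ) →ₗ[ℝ] (Fin n → T →₀ ℝ) :=
  LinearMap.pi (fun i => Finsupp.lmapDomain ℝ ℝ (fun g => X g i))

theorem Phi_apply (X : G → Fin n → T) (c : G →₀ ℝ) (i : Fin n) : Phi X c i = c.mapDomain (fun g => X g i) := rfl

/-- the diagonal -/
noncomputable def Dg (T : Type) (n : ℕ) : Submodule ℝ (Fin n → T →₀ ℝ) :=
  LinearMap.range (LinearMap.pi (fun _ => LinearMap.id) : (T →₀ ℝ) →ₗ[ℝ] (Fin n → T →₀ ℝ))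

theorem mem_Dg (u : Fin n → T →₀ ℝ) : u ∈ Dg T n ↔ ∃ ν : T →₀ ℝ, ∀ i, u i = ν := by
  unfold Dg
  rw [LinearMap.mem_range]
  constructor
  · rintro ⟨ν, rfl⟩
    exact ⟨ν, fun i => rfl⟩
  · rintro ⟨ν, hν⟩
    refine ⟨ν, ?_⟩
    funext i
    rw [hν i]
    rfl

/-- the unit tuple -/
noncomputable def dl (i : Fin n) (t : T) : Fin n → T →₀ ℝ := Pi.single i (Finsupp.single t 1)

theorem mass_dl (i : Fin n) (t : T) : mass (dl i t) = 1 := by
  classical
  unfold mass dl
  rw [Finset.sum_eq_single i]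
  · rw [Pi.single_eq_same, N1_single]
  · intro j _ hj
    rw [Pi.single_eq_of_ne hj, N1_zero]
  · intro h
    exact absurd (Finset.mem_univ i) h

/-- one element of `G` gives one point in each coordinate -/
theorem Phi_single (X : G → Fin n → T) (g : G) : Phi X (Finsupp.single g 1) = ∑ l, dl l (X g l) := by
  classical
  funext i
  rw [Phi_apply, Finsupp.mapDomain_single, Finset.sum_apply]
  rw [Finset.sum_eq_single i]
  · unfold dl
    rw [Pi.single_eq_same]
  · intro j _ hj
    unfold dl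
    rw [Pi.single_eq_of_ne (Ne.symm hj)]
  · intro h
    exact absurd (Finset.mem_univ i) h

theorem sum_dl_diag (t : T) : ∑ l : Fin n, dl l t ∈ Dg T n := by
  classical
  rw [mem_Dg]
  refine ⟨Finsupp.single t 1, ?_⟩
  intro i
  rw [Finset.sum_apply, Finset.sum_eq_single i]
  · unfold dl
    rw [Pi.single_eq_same]
  · intro j _ hj
    unfold dl
    rw [Pi.single_eq_of_ne (Ne.symm hj)]
  · intro h
    exact absurd (Finset.mem_univ i) h

/-- tuples supported in the core -/
def InCore (P : T → Prop) (h : T → ℝ) (C₀ : ℝ) (u : Fin n → T →₀ ℝ) : Prop :=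
  ∀ i t, u i t ≠ 0 → P t ∧ h t ≤ C₀

theorem inCore_sum {P : T → Prop} {h : T → ℝ} {C₀ : ℝ} {ι : Type} (s : Finset ι) (f : ι → Fin n → T →₀ ℝ)
    (hf : ∀ j ∈ s, InCore P h C₀ (f j)) : InCore P h C₀ (∑ j ∈ s, f j) := by
  intro i t hit
  rw [Finset.sum_apply, Finsupp.finset_sum_apply] at hit
  obtain ⟨j, hj, hne⟩ := Finset.exists_ne_zero_of_sum_ne_zero hit
  exact hf j hj i t hne

/-- (A): pushing inwards -/
theorem push (X : G → Fin n → T) (P : T → Prop) (h : T → ℝ) (ρ C₀ : ℝ) (hρ : 0 < ρ)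
    (hP : ∀ g i, P (X g i))
    (hX : ∀ i t, P t → C₀ < h t → ∃ g, X g i = t ∧ ∀ j, j ≠ i → h (X g j) ≤ ρ * h t) (k : ℕ) :
    ∀ (i : Fin n) (t : T), P t → ρ ^ k * h t ≤ C₀ →
      ∃ (τ : G →₀ ℝ) (u : Fin n → T →₀ ℝ), (∀ g, 0 ≤ τ g) ∧ InCore P h C₀ u ∧
        u - (dl i t + Phi X τ) ∈ Dg T n ∧ mass u ≤ (n : ℝ) ^ (2 * k) := by
  classical
  have base : ∀ (k : ℕ) (i : Fin n) (t : T), P t → h t ≤ C₀ →
      ∃ (τ : G →₀ ℝ) (u : Fin n → T →₀ ℝ), (∀ g, 0 ≤ τ g) ∧ InCore P h C₀ u ∧
        u - (dl i t + Phi X τ) ∈ Dg T n ∧ mass u ≤ (n : ℝ) ^ (2 * k) := by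
    intro k i t hPt ht
    refine ⟨0, dl i t, fun g => le_rfl, ?_, ?_, ?_⟩
    · intro j s hjs
      unfold dl at hjs
      by_cases hj : j = i
      · rw [hj, Pi.single_eq_same, Finsupp.single_apply] at hjs
        by_cases hts : t = s
        · rw [← hts]; exact ⟨hPt, ht⟩
        · rw [if_neg hts] at hjs; exact absurd rfl hjs
      · rw [Pi.single_eq_of_ne hj] at hjs
        exact absurd rfl hjs
    · rw [map_zero, add_zero, sub_self]
      exact Submodule.zero_mem _
    · rw [mass_dl]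
      have hn : (1 : ℝ) ≤ n := by exact_mod_cast Nat.one_le_iff_ne_zero.2 (fun h => by subst h; exact i.elim0)
      exact one_le_pow₀ hn
  induction k with
  | zero =>
    intro i t hPt ht
    rw [pow_zero, one_mul] at ht
    exact base 0 i t hPt ht
  | succ k ih =>
    intro i t hPt ht
    by_cases hC : h t ≤ C₀
    · exact base (k + 1) i t hPt hC
    · push Not at hC
      have hg : ∀ j : Fin n, ∃ g, X g j = t ∧ ∀ l, l ≠ j → h (X g l) ≤ ρ * h t := fun j => hX j t hPt hC
      choose g hg1 hg2 using hg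
      have hstep : ∀ j l : Fin n, ∃ (τ : G →₀ ℝ) (u : Fin n → T →₀ ℝ), (∀ g, 0 ≤ τ g) ∧ InCore P h C₀ u ∧
          (l ≠ j → u - (dl l (X (g j) l) + Phi X τ) ∈ Dg T n) ∧ mass u ≤ (n : ℝ) ^ (2 * k) := by
        intro j l
        by_cases hlj : l ≠ j
        · obtain ⟨τ, u, a1, a2, a3, a4⟩ := ih l (X (g j) l) (hP _ _) (by
            have h1 := mul_le_mul_of_nonneg_left (hg2 j l hlj) (pow_pos hρ k).le
            refine h1.trans (le_trans (le_of_eq ?_) ht)
            ring)
          exact ⟨τ, u, a1, a2, fun _ => a3, a4⟩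
        · refine ⟨0, 0, fun _ => le_rfl, ?_, fun h => absurd h hlj, ?_⟩
          · intro i t h
            exact absurd rfl h
          · have : mass (0 : Fin n → T →₀ ℝ) = 0 := by
              unfold mass
              simp [N1_zero]
            rw [this]
            positivity
      choose τ u a1 a2 a3 a4 using hstep
      set J := Finset.univ.erase i with hJ
      set I := J.sigma (fun j : Fin n => Finset.univ.erase j) with hI
      refine ⟨(∑ j ∈ J, Finsupp.single (g j) 1) + ∑ x ∈ I, τ x.1 x.2, ∑ x ∈ I, u x.1 x.2, ?_, ?_, ?_, ?_⟩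
      · intro y
        rw [Finsupp.add_apply, Finsupp.finset_sum_apply, Finsupp.finset_sum_apply]
        apply add_nonneg
        · apply Finset.sum_nonneg
          intro j _
          rw [Finsupp.single_apply]
          split_ifs <;> norm_num
        · exact Finset.sum_nonneg (fun x _ => a1 x.1 x.2 y)
      · exact inCore_sum I _ (fun x _ => a2 x.1 x.2)
      · have e1 : ∑ x ∈ I, (u x.1 x.2 - (dl x.2 (X (g x.1) x.2) + Phi X (τ x.1 x.2))) ∈ Dg T n := by
          apply Submodule.sum_mem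
          intro x hx
          rw [hI, Finset.mem_sigma] at hx
          exact a3 x.1 x.2 (Finset.mem_erase.1 hx.2).1
        have e2 : ∑ l : Fin n, dl l t ∈ Dg T n := sum_dl_diag t
        have e3 : ∑ j ∈ J, Phi X (Finsupp.single (g j) 1) = ∑ j ∈ J, dl j t + ∑ x ∈ I, dl x.2 (X (g x.1) x.2) := by
          rw [hI, Finset.sum_sigma, ← Finset.sum_add_distrib]
          apply Finset.sum_congr rfl
          intro j _
          rw [Phi_single, ← Finset.add_sum_erase _ _ (Finset.mem_univ j), hg1 j]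
        have e4 : dl i t + ∑ j ∈ J, dl j t = ∑ l : Fin n, dl l t := by
          rw [hJ, Finset.add_sum_erase _ (fun l => dl l t) (Finset.mem_univ i)]
        have e5 : ∑ x ∈ I, u x.1 x.2 - (dl i t + Phi X ((∑ j ∈ J, Finsupp.single (g j) 1) + ∑ x ∈ I, τ x.1 x.2)) =
            ∑ x ∈ I, (u x.1 x.2 - (dl x.2 (X (g x.1) x.2) + Phi X (τ x.1 x.2))) - ∑ l : Fin n, dl l t := by
          rw [map_add, map_sum, map_sum, e3, ← e4, Finset.sum_sub_distrib, Finset.sum_add_distrib]
          abel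
        rw [e5]
        exact Submodule.sub_mem _ e1 e2
      · refine (mass_sum I _).trans ?_
        have hle : ∑ x ∈ I, mass (u x.1 x.2) ≤ ∑ x ∈ I, (n : ℝ) ^ (2 * k) :=
          Finset.sum_le_sum (fun x _ => a4 x.1 x.2)
        refine hle.trans ?_
        rw [Finset.sum_const, nsmul_eq_mul]
        have hcard : (I.card : ℝ) ≤ (n : ℝ) ^ 2 := by
          have h1 : I.card ≤ n * n := by
            rw [hI, Finset.card_sigma]
            calc ∑ j ∈ J, (Finset.univ.erase j).card ≤ ∑ j ∈ J, n := by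
                  apply Finset.sum_le_sum
                  intro j _
                  exact (Finset.card_erase_le).trans (by simp)
              _ = J.card * n := by rw [Finset.sum_const, smul_eq_mul]
              _ ≤ n * n := by
                  apply Nat.mul_le_mul_right
                  rw [hJ]
                  exact (Finset.card_erase_le).trans (by simp)
          calc (I.card : ℝ) ≤ ((n * n : ℕ) : ℝ) := by exact_mod_cast h1
            _ = (n : ℝ) ^ 2 := by push_cast; ring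
        calc (I.card : ℝ) * (n : ℝ) ^ (2 * k) ≤ (n : ℝ) ^ 2 * (n : ℝ) ^ (2 * k) := mul_le_mul_of_nonneg_right hcard (by positivity)
          _ = (n : ℝ) ^ (2 * (k + 1)) := by rw [← pow_add]; congr 1; ring

/-- (B): the linear repair map -/
theorem repair (X : G → Fin n → T) :
    ∃ L : (Fin n → T →₀ ℝ) →ₗ[ℝ] (G →₀ ℝ), ∀ (u : Fin n → T →₀ ℝ) (c : G →₀ ℝ),
      u - Phi X c ∈ Dg T n → u - Phi X (L u) ∈ Dg T n := by
  let Ψ : (G →₀ ℝ) →ₗ[ℝ] ((Fin n → T →₀ ℝ) ⧸ Dg T n) := (Dg T n).mkQ.comp (Phi X)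
  obtain ⟨σ₀, hσ₀⟩ := Ψ.rangeRestrict.exists_rightInverse_of_surjective (LinearMap.range_rangeRestrict Ψ)
  obtain ⟨σ, hσ⟩ := LinearMap.exists_extend σ₀
  refine ⟨σ.comp (Dg T n).mkQ, ?_⟩
  intro u c hu
  have h1 : (Dg T n).mkQ u = Ψ c := by
    show (Dg T n).mkQ u = (Dg T n).mkQ (Phi X c)
    rw [← sub_eq_zero, ← map_sub]
    exact (Submodule.Quotient.mk_eq_zero _).2 hu
  have h2 : Ψ (σ (Ψ c)) = Ψ c := by
    have h3 : σ (Ψ c) = σ₀ ⟨Ψ c, LinearMap.mem_range_self Ψ c⟩ := by
      have := LinearMap.congr_fun hσ ⟨Ψ c, LinearMap.mem_range_self Ψ c⟩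
      exact this
    have h4 := LinearMap.congr_fun hσ₀ ⟨Ψ c, LinearMap.mem_range_self Ψ c⟩
    rw [h3]
    exact congrArg Subtype.val h4
  have h5 : (Dg T n).mkQ (u - Phi X (σ ((Dg T n).mkQ u))) = 0 := by
    rw [map_sub, h1]
    show Ψ c - Ψ (σ (Ψ c)) = 0
    rw [h2, sub_self]
  exact (Submodule.Quotient.mk_eq_zero _).1 h5

theorem pos_part (p : T →₀ ℝ) : N1 (p.mapRange (fun x : ℝ => max x 0) (by simp)) ≤ N1 p := by
  classical
  rw [N1_eq _ p.support Finsupp.support_mapRange, N1_eq p p.support (Finset.Subset.refl _)]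
  apply Finset.sum_le_sum
  intro t _
  rw [Finsupp.mapRange_apply]
  rw [abs_of_nonneg (le_max_right _ _)]
  exact max_le (le_abs_self _) (abs_nonneg _)

end

theorem t_ABS : S_ABS := by
  classical
  intro G T n X P h ρ C₀ hρ hρ1 hC₀ hP hfin hX hμ g₀
  rcases Nat.eq_zero_or_pos n with hn | hn
  · subst hn
    refine ⟨Finsupp.single g₀ 1, ?_, ?_, fun i => i.elim0⟩
    · intro g
      rw [Finsupp.single_apply]
      split_ifs <;> norm_num
    · rw [Finsupp.single_eq_same]
      norm_num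
  obtain ⟨L, hL⟩ := repair X
  set Co := hfin.toFinset with hCo
  have hmemCo : ∀ t, t ∈ Co ↔ P t ∧ h t ≤ C₀ := by
    intro t
    rw [hCo, Set.Finite.mem_toFinset]
    rfl
  set S : Finset G := (Finset.univ : Finset (Fin n)).biUnion (fun i => Co.biUnion (fun t => (L (dl i t)).support)) with hS
  set N₁ : ℝ := 1 + ∑ i : Fin n, ∑ t ∈ Co, N1 (L (dl i t)) with hN₁
  have hN₁0 : 1 ≤ N₁ := by
    have : 0 ≤ ∑ i : Fin n, ∑ t ∈ Co, N1 (L (dl i t)) := Finset.sum_nonneg (fun i _ => Finset.sum_nonneg (fun t _ => N1_nonneg _))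
    linarith
  -- expansion of a tuple supported in the core
  have hexp : ∀ u : Fin n → T →₀ ℝ, InCore P h C₀ u → u = ∑ i : Fin n, ∑ t ∈ Co, u i t • dl i t := by
    intro u hu
    funext j
    rw [Finset.sum_apply, Finset.sum_eq_single j]
    · rw [Finset.sum_apply]
      have h1 : u j = ∑ t ∈ Co, u j t • Finsupp.single t (1 : ℝ) := by
        ext s
        rw [Finsupp.finset_sum_apply]
        by_cases hs : s ∈ Co
        · rw [Finset.sum_eq_single s]
          · rw [Finsupp.smul_apply, Finsupp.single_eq_same, smul_eq_mul, mul_one]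
          · intro t _ hts
            rw [Finsupp.smul_apply, Finsupp.single_eq_of_ne (Ne.symm hts), smul_zero]
          · intro h; exact absurd hs h
        · have h2 : u j s = 0 := by
            by_contra hc
            exact hs ((hmemCo s).2 (hu j s hc))
          rw [h2]
          symm
          apply Finset.sum_eq_zero
          intro t ht
          have hts : t ≠ s := fun h => hs (h ▸ ht)
          rw [Finsupp.smul_apply, Finsupp.single_eq_of_ne (Ne.symm hts), smul_zero]
      conv_lhs => rw [h1]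
      apply Finset.sum_congr rfl
      intro t _
      rw [Pi.smul_apply]
      unfold dl
      rw [Pi.single_eq_same]
    · intro i _ hi
      rw [Finset.sum_apply]
      apply Finset.sum_eq_zero
      intro t _
      rw [Pi.smul_apply]
      unfold dl
      rw [Pi.single_eq_of_ne (Ne.symm hi), smul_zero]
    · intro h; exact absurd (Finset.mem_univ j) h
  have hLexp : ∀ u : Fin n → T →₀ ℝ, InCore P h C₀ u → ∀ g, L u g = ∑ i : Fin n, ∑ t ∈ Co, u i t * L (dl i t) g := by
    intro u hu g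
    conv_lhs => rw [hexp u hu]
    rw [map_sum, Finsupp.finset_sum_apply]
    apply Finset.sum_congr rfl
    intro i _
    rw [map_sum, Finsupp.finset_sum_apply]
    apply Finset.sum_congr rfl
    intro t _
    rw [map_smul, Finsupp.smul_apply, smul_eq_mul]
  have hLbd : ∀ u : Fin n → T →₀ ℝ, InCore P h C₀ u → ∀ g, |L u g| ≤ N₁ * mass u := by
    intro u hu g
    rw [hLexp u hu g]
    have h1 : |∑ i : Fin n, ∑ t ∈ Co, u i t * L (dl i t) g| ≤ ∑ i : Fin n, ∑ t ∈ Co, mass u * N1 (L (dl i t)) := by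
      refine (Finset.abs_sum_le_sum_abs _ _).trans (Finset.sum_le_sum fun i _ => ?_)
      refine (Finset.abs_sum_le_sum_abs _ _).trans (Finset.sum_le_sum fun t _ => ?_)
      rw [abs_mul]
      apply mul_le_mul _ (abs_le_N1 _ _) (abs_nonneg _) (mass_nonneg u)
      refine (abs_le_N1 (u i) t).trans ?_
      exact Finset.single_le_sum (f := fun i => N1 (u i)) (fun _ _ => N1_nonneg _) (Finset.mem_univ i)
    refine h1.trans ?_
    simp_rw [← Finset.mul_sum]
    rw [mul_comm]
    apply mul_le_mul_of_nonneg_right _ (mass_nonneg u)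
    rw [hN₁]
    linarith
  have hLsupp : ∀ u : Fin n → T →₀ ℝ, InCore P h C₀ u → ∀ g, g ∉ S → L u g = 0 := by
    intro u hu g hg
    rw [hLexp u hu g]
    apply Finset.sum_eq_zero
    intro i _
    apply Finset.sum_eq_zero
    intro t ht
    have : L (dl i t) g = 0 := by
      by_contra hc
      apply hg
      rw [hS, Finset.mem_biUnion]
      refine ⟨i, Finset.mem_univ i, ?_⟩
      rw [Finset.mem_biUnion]
      exact ⟨t, ht, Finsupp.mem_support_iff.2 hc⟩
    rw [this, mul_zero]
  -- the approximate solution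
  have hnr : (1 : ℝ) ≤ n := by exact_mod_cast hn
  obtain ⟨k, μ, m1, m2, m3, m4⟩ := hμ (insert g₀ S) (1 / (4 * N₁ * (n + n ^ 2))) (by positivity)
  set m : Fin n → T →₀ ℝ := Phi X μ with hm
  have hmi : ∀ i, m i = μ.mapDomain (fun g => X g i) := fun i => rfl
  have hmsupp : ∀ i t, m i t ≠ 0 → P t ∧ ρ ^ k * h t ≤ C₀ := by
    intro i t hne
    rw [hmi] at hne
    have h1 : t ∈ (μ.mapDomain (fun g => X g i)).support := Finsupp.mem_support_iff.2 hne
    have h2 := Finsupp.mapDomain_support h1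
    rw [Finset.mem_image] at h2
    obtain ⟨g, hg, rfl⟩ := h2
    exact ⟨hP g i, m3 g hg i⟩
  set i₀ : Fin n := ⟨0, hn⟩ with hi₀
  set pp : Fin n → T →₀ ℝ := fun j => (m i₀ - m j).mapRange (fun x : ℝ => max x 0) (by simp) with hpp
  set e : Fin n → T →₀ ℝ := fun i => m i - m i₀ + ∑ j, pp j with he
  have he0 : ∀ i t, 0 ≤ e i t := by
    intro i t
    rw [he]
    simp only
    rw [Finsupp.add_apply, Finsupp.sub_apply, Finsupp.finset_sum_apply]
    have h1 : ∀ j, 0 ≤ pp j t := by
      intro j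
      rw [hpp]
      simp only
      rw [Finsupp.mapRange_apply]
      exact le_max_right _ _
    have h2 : pp i t ≤ ∑ j, pp j t := Finset.single_le_sum (f := fun j => pp j t) (fun j _ => h1 j) (Finset.mem_univ i)
    have h3 : m i₀ t - m i t ≤ pp i t := by
      rw [hpp]
      simp only
      rw [Finsupp.mapRange_apply, Finsupp.sub_apply]
      exact le_max_left _ _
    linarith
  have hesupp : ∀ i t, e i t ≠ 0 → P t ∧ ρ ^ k * h t ≤ C₀ := by
    intro i t hne
    by_contra hc
    have h1 : ∀ j, m j t = 0 := by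
      intro j
      by_contra h2
      exact hc (hmsupp j t h2)
    apply hne
    rw [he]
    simp only
    rw [Finsupp.add_apply, Finsupp.sub_apply, Finsupp.finset_sum_apply, h1 i, h1 i₀, sub_zero, zero_add]
    apply Finset.sum_eq_zero
    intro j _
    rw [hpp]
    simp only
    rw [Finsupp.mapRange_apply, Finsupp.sub_apply, h1 i₀, h1 j]
    simp
  have hediag : e - Phi X μ ∈ Dg T n := by
    rw [mem_Dg]
    refine ⟨-m i₀ + ∑ j, pp j, ?_⟩
    intro i
    rw [he, ← hm]
    simp only [Pi.sub_apply]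
    abel
  set δ : ℝ := 1 / (4 * N₁ * (n + n ^ 2)) with hδ
  have hemass : (n : ℝ) ^ (2 * k) * mass e ≤ (n + n ^ 2) * δ := by
    have hn2 : 0 < (n : ℝ) ^ (2 * k) := by positivity
    have hTV : ∀ i j, (n : ℝ) ^ (2 * k) * N1 (m i - m j) ≤ δ := fun i j => m4 i j
    have h1 : ∀ i, (n : ℝ) ^ (2 * k) * N1 (e i) ≤ (1 + n) * δ := by
      intro i
      have h2 : N1 (e i) ≤ N1 (m i - m i₀) + ∑ j, N1 (m i₀ - m j) := by
        rw [he]
        refine (N1_add _ _).trans ?_
        have h3 : N1 (∑ j, pp j) ≤ ∑ j, N1 (m i₀ - m j) :=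
          (N1_sum _ _).trans (Finset.sum_le_sum (fun j _ => pos_part _))
        linarith
      calc (n : ℝ) ^ (2 * k) * N1 (e i) ≤ (n : ℝ) ^ (2 * k) * (N1 (m i - m i₀) + ∑ j, N1 (m i₀ - m j)) :=
            mul_le_mul_of_nonneg_left h2 hn2.le
        _ = (n : ℝ) ^ (2 * k) * N1 (m i - m i₀) + ∑ j, (n : ℝ) ^ (2 * k) * N1 (m i₀ - m j) := by
            rw [mul_add, Finset.mul_sum]
        _ ≤ δ + ∑ j : Fin n, δ := add_le_add (hTV i i₀) (Finset.sum_le_sum (fun j _ => hTV i₀ j))
        _ = (1 + n) * δ := by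
            rw [Finset.sum_const, Finset.card_univ, Fintype.card_fin, nsmul_eq_mul]
            ring
    unfold mass
    rw [Finset.mul_sum]
    calc ∑ i, (n : ℝ) ^ (2 * k) * N1 (e i) ≤ ∑ i : Fin n, (1 + n) * δ := Finset.sum_le_sum (fun i _ => h1 i)
      _ = (n + n ^ 2) * δ := by
          rw [Finset.sum_const, Finset.card_univ, Fintype.card_fin, nsmul_eq_mul]
          ring
  -- apply (A) to every term
  have hA : ∀ (i : Fin n) (t : T), ∃ (τ : G →₀ ℝ) (u : Fin n → T →₀ ℝ), (∀ g, 0 ≤ τ g) ∧ InCore P h C₀ u ∧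
      (e i t ≠ 0 → u - (dl i t + Phi X τ) ∈ Dg T n) ∧ mass u ≤ (n : ℝ) ^ (2 * k) := by
    intro i t
    by_cases hne : e i t = 0
    · refine ⟨0, 0, fun _ => le_rfl, fun i t h => absurd rfl h, fun h => absurd hne h, ?_⟩
      have : mass (0 : Fin n → T →₀ ℝ) = 0 := by
        unfold mass
        simp [N1_zero]
      rw [this]
      positivity
    · obtain ⟨h1, h2⟩ := hesupp i t hne
      obtain ⟨τ, u, a1, a2, a3, a4⟩ := push X P h ρ C₀ hρ hP hX k i t h1 h2
      exact ⟨τ, u, a1, a2, fun _ => a3, a4⟩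
  choose τ u a1 a2 a3 a4 using hA
  set I := (Finset.univ : Finset (Fin n)).sigma (fun i => (e i).support) with hI
  set uu : Fin n → T →₀ ℝ := ∑ x ∈ I, e x.1 x.2 • u x.1 x.2 with huu
  set tt : G →₀ ℝ := ∑ x ∈ I, e x.1 x.2 • τ x.1 x.2 with htt
  have hexp2 : e = ∑ x ∈ I, e x.1 x.2 • dl x.1 x.2 := by
    rw [hI, Finset.sum_sigma]
    funext j
    rw [Finset.sum_apply, Finset.sum_eq_single j]
    · rw [Finset.sum_apply]
      have h1 : ∀ t ∈ (e j).support, (e j t • dl j t : Fin n → T →₀ ℝ) j = Finsupp.single t (e j t) := by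
        intro t _
        rw [Pi.smul_apply]
        unfold dl
        rw [Pi.single_eq_same, Finsupp.smul_single, smul_eq_mul, mul_one]
      rw [Finset.sum_congr rfl h1]
      exact (Finsupp.sum_single (e j)).symm
    · intro i _ hi
      rw [Finset.sum_apply]
      apply Finset.sum_eq_zero
      intro t _
      rw [Pi.smul_apply]
      unfold dl
      rw [Pi.single_eq_of_ne (Ne.symm hi), smul_zero]
    · intro h; exact absurd (Finset.mem_univ j) h
  have htt0 : ∀ g, 0 ≤ tt g := by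
    intro g
    rw [htt, Finsupp.finset_sum_apply]
    apply Finset.sum_nonneg
    intro x _
    rw [Finsupp.smul_apply, smul_eq_mul]
    exact mul_nonneg (he0 _ _) (a1 _ _ _)
  have huucore : InCore P h C₀ uu := by
    rw [huu]
    apply inCore_sum
    intro x _ i t hne
    rw [Pi.smul_apply, Finsupp.smul_apply, smul_eq_mul] at hne
    exact a2 x.1 x.2 i t (right_ne_zero_of_mul hne)
  have huudiag : uu - Phi X (μ + tt) ∈ Dg T n := by
    have h1 : ∑ x ∈ I, e x.1 x.2 • (u x.1 x.2 - (dl x.1 x.2 + Phi X (τ x.1 x.2))) ∈ Dg T n := by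
      apply Submodule.sum_mem
      intro x hx
      apply Submodule.smul_mem
      rw [hI, Finset.mem_sigma] at hx
      exact a3 x.1 x.2 (Finsupp.mem_support_iff.1 hx.2)
    have h2 : uu - Phi X (μ + tt) = ∑ x ∈ I, e x.1 x.2 • (u x.1 x.2 - (dl x.1 x.2 + Phi X (τ x.1 x.2))) + (e - Phi X μ) := by
      simp_rw [smul_sub, smul_add]
      rw [Finset.sum_sub_distrib, Finset.sum_add_distrib, ← huu, ← hexp2, map_add, htt, map_sum]
      simp_rw [map_smul]
      abel
    rw [h2]
    exact Submodule.add_mem _ h1 hediag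
  have hrep := hL uu (μ + tt) huudiag
  have huumass : N₁ * mass uu ≤ 1 / 4 := by
    have h1 : mass uu ≤ (n : ℝ) ^ (2 * k) * mass e := by
      rw [huu]
      refine (mass_sum I _).trans ?_
      have h2 : ∀ x ∈ I, mass (e x.1 x.2 • u x.1 x.2) ≤ |e x.1 x.2| * (n : ℝ) ^ (2 * k) := by
        intro x _
        rw [mass_smul]
        exact mul_le_mul_of_nonneg_left (a4 _ _) (abs_nonneg _)
      refine (Finset.sum_le_sum h2).trans (le_of_eq ?_)
      rw [← Finset.sum_mul, mul_comm]
      congr 1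
      rw [hI, Finset.sum_sigma]
      rfl
    have h3 := h1.trans hemass
    have h4 : N₁ * mass uu ≤ N₁ * ((n + n ^ 2) * δ) := mul_le_mul_of_nonneg_left h3 (by linarith)
    refine h4.trans (le_of_eq ?_)
    rw [hδ]
    field_simp
  refine ⟨μ + tt - L uu, ?_, ?_, ?_⟩
  · intro g
    rw [Finsupp.sub_apply, Finsupp.add_apply]
    by_cases hg : g ∈ S
    · have h1 := m2 g (Finset.mem_insert_of_mem hg)
      have h2 := (abs_le.1 (hLbd uu huucore g)).2
      have h3 := htt0 g
      linarith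
    · rw [hLsupp uu huucore g hg]
      have h1 := m1 g
      have h3 := htt0 g
      linarith
  · rw [Finsupp.sub_apply, Finsupp.add_apply]
    have h1 := m2 g₀ (Finset.mem_insert_self _ _)
    have h2 := (abs_le.1 (hLbd uu huucore g₀)).2
    have h3 := htt0 g₀
    linarith
  · have h1 : Phi X (μ + tt - L uu) ∈ Dg T n := by
      have h2 : Phi X (μ + tt - L uu) = (uu - Phi X (L uu)) - (uu - Phi X (μ + tt)) := by
        rw [map_sub]
        abel
      rw [h2]
      exact Submodule.sub_mem _ hrep huudiag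
    rw [mem_Dg] at h1
    obtain ⟨ν, hν⟩ := h1
    intro i j
    have h2 := hν i
    have h3 := hν j
    rw [Phi_apply] at h2 h3
    rw [h2, h3]

end Q65.SY
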