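import Pool.Agent.Q247.SY.Stm

/-!
# SY-FIB: the fibre sums of the discrete Gaussian
-/

set_option autoImplicit false
set_option linter.unusedSectionVars false
open scoped NumberField ComplexConjugate
open NumberField

namespace Q65.SY

open Q247.SY

section cmp
variable {K : Type} [Field K] [NumberField K]

open Classical in
/-- the component at an infinite place -/
noncomputable def cmp (w : InfinitePlace K) (z : mixedEmbedding.mixedSpace K) : ℂ :=
  if hw : w.IsReal then ((z.1 ⟨w, hw⟩ : ℝ) : ℂ)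
  else z.2 ⟨w, InfinitePlace.not_isReal_iff_isComplex.1 hw⟩

theorem cmp_real (w : InfinitePlace K) (hw : w.IsReal) (z : mixedEmbedding.mixedSpace K) :
    cmp w z = ((z.1 ⟨w, hw⟩ : ℝ) : ℂ) := by
  unfold cmp; rw [dif_pos hw]

theorem cmp_cpx (w : InfinitePlace K) (hw : w.IsComplex) (z : mixedEmbedding.mixedSpace K) :
    cmp w z = z.2 ⟨w, hw⟩ := by
  unfold cmp
  rw [dif_neg (InfinitePlace.not_isReal_iff_isComplex.2 hw)]

theorem cmp_add (w : InfinitePlace K) (z z' : mixedEmbedding.mixedSpace K) :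
    cmp w (z + z') = cmp w z + cmp w z' := by
  rcases w.isReal_or_isComplex with hw | hw
  · simp [cmp_real w hw]
  · simp [cmp_cpx w hw]

theorem cmp_sub (w : InfinitePlace K) (z z' : mixedEmbedding.mixedSpace K) :
    cmp w (z - z') = cmp w z - cmp w z' := by
  rcases w.isReal_or_isComplex with hw | hw
  · simp [cmp_real w hw]
  · simp [cmp_cpx w hw]

theorem cmp_mul (w : InfinitePlace K) (z z' : mixedEmbedding.mixedSpace K) :
    cmp w (z * z') = cmp w z * cmp w z' := by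
  rcases w.isReal_or_isComplex with hw | hw
  · simp [cmp_real w hw]
  · simp [cmp_cpx w hw]

theorem cmp_smul (w : InfinitePlace K) (r : ℝ) (z : mixedEmbedding.mixedSpace K) :
    cmp w (r • z) = (r : ℂ) * cmp w z := by
  rcases w.isReal_or_isComplex with hw | hw
  · simp [cmp_real w hw]
  · simp [cmp_cpx w hw]

theorem cmp_zero (w : InfinitePlace K) : cmp w (0 : mixedEmbedding.mixedSpace K) = 0 := by
  rcases w.isReal_or_isComplex with hw | hw
  · simp [cmp_real w hw]
  · simp [cmp_cpx w hw]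

theorem cmp_sum {ι : Type} (s : Finset ι) (w : InfinitePlace K)
    (z : ι → mixedEmbedding.mixedSpace K) : cmp w (∑ l ∈ s, z l) = ∑ l ∈ s, cmp w (z l) := by
  classical
  induction s using Finset.induction_on with
  | empty => simp [cmp_zero]
  | insert a s ha ih => rw [Finset.sum_insert ha, Finset.sum_insert ha, cmp_add, ih]

theorem cmp_emb (w : InfinitePlace K) (x : K) : cmp w (mixedEmbedding K x) = w.embedding x := by
  rcases w.isReal_or_isComplex with hw | hw
  · rw [cmp_real w hw, mixedEmbedding.mixedEmbedding_apply_isReal,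
      InfinitePlace.embedding_of_isReal_apply]
  · rw [cmp_cpx w hw, mixedEmbedding.mixedEmbedding_apply_isComplex]

theorem cmp_ext {z z' : mixedEmbedding.mixedSpace K} (h : ∀ w, cmp w z = cmp w z') : z = z' := by
  apply Prod.ext
  · funext w
    have := h w.1
    rw [cmp_real w.1 w.2, cmp_real w.1 w.2] at this
    exact_mod_cast this
  · funext w
    have := h w.1
    rwa [cmp_cpx w.1 w.2, cmp_cpx w.1 w.2] at this

end cmp

section main
variable {K : Type} [Field K] [NumberField K] {F : Type} [Fintype F]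

/-- the ambient euclidean space -/
abbrev VV (K F : Type) [Field K] : Type := PiLp 2 (fun _ : F × InfinitePlace K => ℂ)

/-- the linear map to the euclidean space -/
noncomputable def JJ (τ : F → InfinitePlace K → ℝ) :
    (F → mixedEmbedding.mixedSpace K) →ₗ[ℝ] VV K F where
  toFun z := WithLp.toLp 2 (fun p => cmp p.2 (z p.1) / ((Real.sqrt (τ p.1 p.2) : ℝ) : ℂ))
  map_add' z z' := by
    ext p
    simp only [Pi.add_apply, cmp_add, PiLp.add_apply]
    rw [add_div]
  map_smul' r z := by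
    ext p
    simp only [Pi.smul_apply, cmp_smul, PiLp.smul_apply, RingHom.id_apply, Complex.real_smul]
    rw [mul_div_assoc]

theorem JJ_apply (τ : F → InfinitePlace K → ℝ) (z : F → mixedEmbedding.mixedSpace K)
    (p : F × InfinitePlace K) :
    JJ τ z p = cmp p.2 (z p.1) / ((Real.sqrt (τ p.1 p.2) : ℝ) : ℂ) := rfl

theorem JJ_inj (τ : F → InfinitePlace K → ℝ) (hτ : ∀ l w, 0 < τ l w) :
    Function.Injective (JJ (K := K) τ) := by
  intro z z' h
  funext l
  apply cmp_ext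
  intro w
  have h1 : JJ τ z (l, w) = JJ τ z' (l, w) := by rw [h]
  rw [JJ_apply, JJ_apply] at h1
  have h2 : ((Real.sqrt (τ l w) : ℝ) : ℂ) ≠ 0 := by
    have := Real.sqrt_pos.2 (hτ l w)
    exact_mod_cast this.ne'
  exact (div_left_inj' h2).1 h1

theorem JJ_norm (τ : F → InfinitePlace K → ℝ) (hτ : ∀ l w, 0 < τ l w)
    (z : F → mixedEmbedding.mixedSpace K) :
    ‖JJ τ z‖ ^ 2 = ∑ l, ∑ w, ‖cmp w (z l)‖ ^ 2 / τ l w := by
  rw [PiLp.norm_sq_eq_of_L2, Fintype.sum_prod_type]
  refine Finset.sum_congr rfl (fun l _ => Finset.sum_congr rfl (fun w _ => ?_))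
  rw [JJ_apply, norm_div, div_pow, Complex.norm_real, Real.norm_eq_abs, sq_abs,
    Real.sq_sqrt (hτ l w).le]

/-- the embedding of a vector of integers -/
noncomputable def mx (g : F → 𝓞 K) : F → mixedEmbedding.mixedSpace K :=
  fun l => mixedEmbedding K (g l : K)

theorem mx_add (g g' : F → 𝓞 K) : mx (g + g') = mx g + mx g' := by
  funext l
  simp [mx]

theorem mx_zsmul (n : ℤ) (g : F → 𝓞 K) : mx (n • g) = (n : ℝ) • mx g := by
  funext l
  simp only [mx, Pi.smul_apply]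
  rw [Int.cast_smul_eq_zsmul ℝ n]
  rw [← map_zsmul (mixedEmbedding K)]
  congr 1

theorem mx_sum {ι : Type} (s : Finset ι) (g : ι → F → 𝓞 K) :
    mx (∑ k ∈ s, g k) = ∑ k ∈ s, mx (g k) := by
  classical
  induction s using Finset.induction_on with
  | empty => funext l; simp [mx]
  | insert a s ha ih => rw [Finset.sum_insert ha, Finset.sum_insert ha, mx_add, ih]

theorem QF_eq (τ : F → InfinitePlace K → ℝ) (hτ : ∀ l w, 0 < τ l w) (g : F → 𝓞 K) :
    QF τ g = ‖JJ τ (mx g)‖ ^ 2 := by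
  rw [JJ_norm τ hτ]
  unfold QF
  refine Finset.sum_congr rfl (fun l _ => Finset.sum_congr rfl (fun w _ => ?_))
  rw [mx, cmp_emb, InfinitePlace.norm_embedding_eq]

/-- the shift vector -/
noncomputable def zz (ζ : F → 𝓞 K) (τ : F → InfinitePlace K → ℝ) (t : 𝓞 K) :
    F → mixedEmbedding.mixedSpace K :=
  fun l => (fun w => τ l w.1 * (mixedEmbedding K (ζ l : K)).1 w * (mixedEmbedding K (t : K)).1 w,
    fun w => (τ l w.1 : ℂ) * conj ((mixedEmbedding K (ζ l : K)).2 w) * (mixedEmbedding K (t : K)).2 w)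

theorem cmp_zz (ζ : F → 𝓞 K) (τ : F → InfinitePlace K → ℝ) (t : 𝓞 K) (l : F)
    (w : InfinitePlace K) :
    cmp w (zz ζ τ t l) = (τ l w : ℂ) * conj (w.embedding (ζ l : K)) * w.embedding (t : K) := by
  rcases w.isReal_or_isComplex with hw | hw
  · rw [cmp_real w hw]
    unfold zz
    simp only [mixedEmbedding.mixedEmbedding_apply_isReal]
    push_cast
    rw [InfinitePlace.embedding_of_isReal_apply, InfinitePlace.embedding_of_isReal_apply]
    congr 2
    rw [← InfinitePlace.embedding_of_isReal_apply hw, Complex.conj_ofReal]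
  · rw [cmp_cpx w hw]
    unfold zz
    simp only [mixedEmbedding.mixedEmbedding_apply_isComplex]

/-- the basic identity at one place -/
theorem one_place (x ζ : F → ℂ) (t : ℂ) (τ : F → ℝ) (hτ : ∀ l, 0 < τ l)
    (h1 : ∑ l, τ l * ‖ζ l‖ ^ 2 = 1) (h2 : ∑ l, ζ l * x l = t) :
    ∑ l, ‖x l‖ ^ 2 / τ l = ‖t‖ ^ 2 + ∑ l, ‖x l - (τ l : ℂ) * conj (ζ l) * t‖ ^ 2 / τ l := by
  have key : ∀ l, ‖x l - (τ l : ℂ) * conj (ζ l) * t‖ ^ 2 / τ l
      = ‖x l‖ ^ 2 / τ l - 2 * (ζ l * x l * conj t).re + τ l * ‖ζ l‖ ^ 2 * ‖t‖ ^ 2 := by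
    intro l
    have hne : τ l ≠ 0 := (hτ l).ne'
    field_simp
    rw [← Complex.normSq_eq_norm_sq, ← Complex.normSq_eq_norm_sq, ← Complex.normSq_eq_norm_sq,
      ← Complex.normSq_eq_norm_sq]
    simp only [Complex.normSq_apply, Complex.sub_re, Complex.sub_im, Complex.mul_re, Complex.mul_im,
      Complex.ofReal_re, Complex.ofReal_im, Complex.conj_re, Complex.conj_im]
    ring
  rw [Finset.sum_congr rfl (fun l _ => key l), Finset.sum_add_distrib, Finset.sum_sub_distrib,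
    ← Finset.mul_sum, ← Complex.re_sum, ← Finset.sum_mul, h2, ← Finset.sum_mul, h1]
  have : (t * conj t).re = ‖t‖ ^ 2 := by
    rw [Complex.mul_conj, Complex.ofReal_re, Complex.normSq_eq_norm_sq]
  rw [this]
  ring

theorem QF_split (ζ : F → 𝓞 K) (τ : F → InfinitePlace K → ℝ) (hτ : ∀ l w, 0 < τ l w)
    (h1 : ∀ w : InfinitePlace K, ∑ l, τ l w * (w (ζ l : K)) ^ 2 = 1) (t : 𝓞 K) (g : F → 𝓞 K)
    (hg : ∑ l, ζ l * g l = t) :
    QF τ g = NF t + ‖JJ τ (mx g - zz ζ τ t)‖ ^ 2 := by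
  rw [JJ_norm τ hτ]
  unfold QF NF
  rw [Finset.sum_comm, Finset.sum_comm (f := fun l w => ‖cmp w ((mx g - zz ζ τ t) l)‖ ^ 2 / τ l w),
    ← Finset.sum_add_distrib]
  refine Finset.sum_congr rfl (fun w _ => ?_)
  have := one_place (fun l => w.embedding (g l : K)) (fun l => w.embedding (ζ l : K))
    (w.embedding (t : K)) (fun l => τ l w) (fun l => hτ l w)
    (by simp only [InfinitePlace.norm_embedding_eq]; exact h1 w)
    (by
      rw [← hg]
      push_cast
      rw [map_sum]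
      refine Finset.sum_congr rfl (fun l _ => ?_)
      rw [map_mul])
  simp only [InfinitePlace.norm_embedding_eq] at this
  rw [this]
  congr 1
  refine Finset.sum_congr rfl (fun l _ => ?_)
  rw [Pi.sub_apply, cmp_sub, cmp_zz, mx, cmp_emb]

theorem ker_zz (ζ : F → 𝓞 K) (τ : F → InfinitePlace K → ℝ)
    (h1 : ∀ w : InfinitePlace K, ∑ l, τ l w * (w (ζ l : K)) ^ 2 = 1) (t : 𝓞 K) (g : F → 𝓞 K)
    (hg : ∑ l, ζ l * g l = t) :
    ∑ l, mixedEmbedding K (ζ l : K) * (mx g - zz ζ τ t) l = 0 := by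
  apply cmp_ext
  intro w
  rw [cmp_sum, cmp_zero]
  have e1 : ∑ l, w.embedding (ζ l : K) * w.embedding (g l : K) = w.embedding (t : K) := by
    rw [← hg]
    push_cast
    rw [map_sum]
    refine Finset.sum_congr rfl (fun l _ => ?_)
    rw [map_mul]
  have e2 : ∑ l, w.embedding (ζ l : K) * ((τ l w : ℂ) * conj (w.embedding (ζ l : K))
      * w.embedding (t : K)) = w.embedding (t : K) := by
    have e3 : ∀ l, w.embedding (ζ l : K) * ((τ l w : ℂ) * conj (w.embedding (ζ l : K))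
      * w.embedding (t : K)) = ((τ l w * (w (ζ l : K)) ^ 2 : ℝ) : ℂ) * w.embedding (t : K) := by
      intro l
      rw [← InfinitePlace.norm_embedding_eq w (ζ l : K), ← Complex.normSq_eq_norm_sq]
      push_cast
      rw [← Complex.mul_conj]
      ring
    rw [Finset.sum_congr rfl (fun l _ => e3 l), ← Finset.sum_mul, ← Complex.ofReal_sum, h1 w]
    simp
  calc _ = ∑ l, (w.embedding (ζ l : K) * w.embedding (g l : K)
        - w.embedding (ζ l : K) * ((τ l w : ℂ) * conj (w.embedding (ζ l : K))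
      * w.embedding (t : K))) := by
        refine Finset.sum_congr rfl (fun l _ => ?_)
        rw [cmp_mul, Pi.sub_apply, cmp_sub, cmp_zz, mx, cmp_emb, cmp_emb]
        ring
    _ = 0 := by rw [Finset.sum_sub_distrib, e1, e2, sub_self]

/-- the integral kernel -/
def NN (ζ : F → 𝓞 K) : Submodule ℤ (F → 𝓞 K) where
  carrier := {y | ∑ l, ζ l * y l = 0}
  zero_mem' := by simp
  add_mem' := by
    intro a b ha hb
    simp only [Set.mem_setOf_eq, Pi.add_apply, mul_add, Finset.sum_add_distrib] at *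
    rw [ha, hb, add_zero]
  smul_mem' := by
    intro c a ha
    simp only [Set.mem_setOf_eq, Pi.smul_apply, mul_smul_comm] at *
    rw [← Finset.smul_sum, ha, smul_zero]

theorem mem_NN (ζ : F → 𝓞 K) (y : F → 𝓞 K) : y ∈ NN ζ ↔ ∑ l, ζ l * y l = 0 := Iff.rfl

/-- the parametrization of a fibre -/
noncomputable def fibEquiv (ζ : F → 𝓞 K) {m : ℕ} (b : Module.Basis (Fin m) ℤ (NN ζ)) (t : 𝓞 K)
    (g0 : F → 𝓞 K) (hg0 : ∑ l, ζ l * g0 l = t) :
    (Fin m → ℤ) ≃ {g : F → 𝓞 K // ∑ l, ζ l * g l = t} :=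
  (b.equivFun.symm.toEquiv).trans
    { toFun := fun y => ⟨g0 + y.1, by
        have := (mem_NN ζ y.1).1 y.2
        simp only [Pi.add_apply, mul_add, Finset.sum_add_distrib, hg0, this, add_zero]⟩
      invFun := fun g => ⟨g.1 - g0, by
        rw [mem_NN]
        simp only [Pi.sub_apply, mul_sub, Finset.sum_sub_distrib, hg0, g.2, sub_self]⟩
      left_inv := fun y => by simp
      right_inv := fun g => by simp }

theorem fibEquiv_apply (ζ : F → 𝓞 K) {m : ℕ} (b : Module.Basis (Fin m) ℤ (NN ζ)) (t : 𝓞 K)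
    (g0 : F → 𝓞 K) (hg0 : ∑ l, ζ l * g0 l = t) (n : Fin m → ℤ) :
    ((fibEquiv ζ b t g0 hg0 n).1 : F → 𝓞 K) = g0 + ∑ k, n k • (b k : F → 𝓞 K) := by
  show g0 + ((b.equivFun.symm n : NN ζ) : F → 𝓞 K) = _
  rw [Module.Basis.equivFun_symm_apply]
  congr 1
  rw [Submodule.coe_sum]
  rfl

theorem t_FIB : S_FIB := by
  intro hTH1 hTHM hIND hSPAN K _ _ F _ ζ τ hτ h1
  obtain ⟨m, b, hb⟩ := hIND K F (NN ζ)
  set γ : Fin m → VV K F := fun k => JJ τ (mx (b k : F → 𝓞 K)) with hγ
  have hγli : LinearIndependent ℝ γ := by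
    have := hb.map' (JJ τ) (LinearMap.ker_eq_bot.2 (JJ_inj τ hτ))
    exact this
  obtain ⟨κ, c, C, hκ, hc, hC, hmain⟩ := hTHM hTH1 (VV K F) m γ hγli
  refine ⟨c, C / κ, hc, div_pos hC hκ, ?_⟩
  intro s hs0 hs1
  refine ⟨κ * (Real.sqrt s)⁻¹ ^ m, by positivity, ?_⟩
  intro t ht
  -- a point of the fibre
  obtain ⟨g0, hg0⟩ : ∃ g0 : F → 𝓞 K, ∑ l, ζ l * g0 l = t := by
    rw [Ideal.span, Submodule.mem_span_range_iff_exists_fun] at ht
    obtain ⟨c, hc⟩ := ht
    refine ⟨c, ?_⟩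
    rw [← hc]
    refine Finset.sum_congr rfl (fun l _ => ?_)
    rw [smul_eq_mul, mul_comm]
  set v : VV K F := JJ τ (mx g0 - zz ζ τ t) with hv
  have hne : ∃ l, ζ l ≠ 0 := by
    by_contra hcon
    push Not at hcon
    obtain ⟨w⟩ : Nonempty (InfinitePlace K) := inferInstance
    have := h1 w
    simp [hcon] at this
  have hvs : v ∈ Submodule.span ℝ (Set.range γ) := by
    have hx := hSPAN K F ζ hne (mx g0 - zz ζ τ t) (ker_zz ζ τ h1 t g0 hg0)
    have hx2 : v ∈ (Submodule.span ℝ {x : F → mixedEmbedding.mixedSpace K |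
        ∃ y : F → 𝓞 K, ∑ l, ζ l * y l = 0 ∧ x = fun l => mixedEmbedding K (y l : K)}).map (JJ τ) :=
      Submodule.mem_map_of_mem hx
    rw [Submodule.map_span] at hx2
    refine (Submodule.span_le.2 ?_) hx2
    rintro _ ⟨_, ⟨y, hy, rfl⟩, rfl⟩
    have hyN : y ∈ NN ζ := hy
    have e1 : y = ∑ k, (b.repr ⟨y, hyN⟩ k) • (b k : F → 𝓞 K) := by
      have := b.sum_repr ⟨y, hyN⟩
      have h2 := congrArg (Subtype.val) this
      rw [Submodule.coe_sum] at h2
      exact h2.symm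
    show JJ τ (mx y) ∈ _
    rw [e1, mx_sum, map_sum]
    refine Submodule.sum_mem _ (fun k _ => ?_)
    rw [mx_zsmul, map_smul]
    exact Submodule.smul_mem _ _ (Submodule.subset_span ⟨k, rfl⟩)
  obtain ⟨hsum, hval⟩ := hmain s hs0 hs1 v hvs
  -- transport
  have hterm : ∀ n : Fin m → ℤ, Real.exp (-s * QF τ (fibEquiv ζ b t g0 hg0 n).1)
      = Real.exp (-s * NF t) * Real.exp (-s * ‖∑ k, (n k : ℝ) • γ k + v‖ ^ 2) := by
    intro n
    rw [← Real.exp_add]
    congr 1
    rw [QF_split ζ τ hτ h1 t _ (fibEquiv ζ b t g0 hg0 n).2, fibEquiv_apply]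
    have e2 : JJ τ (mx (g0 + ∑ k, n k • (b k : F → 𝓞 K)) - zz ζ τ t)
        = ∑ k, (n k : ℝ) • γ k + v := by
      rw [mx_add, mx_sum, add_comm (mx g0), add_sub_assoc, map_add, map_sum]
      congr 1
      refine Finset.sum_congr rfl (fun k _ => ?_)
      rw [mx_zsmul, map_smul]
    rw [e2]
    ring
  have hS : Summable (fun n : Fin m → ℤ =>
      Real.exp (-s * QF τ (fibEquiv ζ b t g0 hg0 n).1)) := by
    simp only [hterm]
    exact hsum.mul_left _
  constructor
  · exact (Equiv.summable_iff (fibEquiv ζ b t g0 hg0)).1 hS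
  · rw [← (fibEquiv ζ b t g0 hg0).tsum_eq (fun g : {g : F → 𝓞 K // ∑ l, ζ l * g l = t} =>
      Real.exp (-s * QF τ g.1))]
    simp only [hterm]
    rw [tsum_mul_left]
    have e3 : Real.exp (-s * NF t) * (∑' n : Fin m → ℤ, Real.exp (-s * ‖∑ k, (n k : ℝ) • γ k + v‖ ^ 2))
        - κ * (Real.sqrt s)⁻¹ ^ m * Real.exp (-s * NF t)
        = Real.exp (-s * NF t) * ((∑' n : Fin m → ℤ, Real.exp (-s * ‖∑ k, (n k : ℝ) • γ k + v‖ ^ 2))
          - κ * (Real.sqrt s)⁻¹ ^ m) := by ring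
    rw [e3, abs_mul, abs_of_pos (Real.exp_pos _)]
    calc _ ≤ Real.exp (-s * NF t) * (C * Real.exp (-c / s) * (Real.sqrt s)⁻¹ ^ m) :=
          mul_le_mul_of_nonneg_left hval (Real.exp_pos _).le
      _ = C / κ * Real.exp (-c / s) * (κ * (Real.sqrt s)⁻¹ ^ m * Real.exp (-s * NF t)) := by
          field_simp

end main

end Q65.SY
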