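import Pool.Agent.Q247.SY.Stm

/-!
# SY-GAU: truncated discrete Gaussians have almost equal marginals
-/

set_option autoImplicit false
open scoped NumberField
open NumberField

namespace Q65.SY

open Q247.SY

section abs
variable {G T : Type}

theorem fib_hasSum (X : G → T) (W : G → ℝ) (Z : ℝ) (hW : HasSum W Z)
    (hf : ∀ t, Summable (fun g : {g : G // X g = t} => W g.1)) :
    HasSum (fun t => ∑' g : {g : G // X g = t}, W g.1) Z := by
  have h1 : HasSum (fun p : (Σ t : T, {g : G // X g = t}) => W p.2.1) Z := by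
    have := (Equiv.sigmaFiberEquiv X).hasSum_iff (f := W) (a := Z)
    exact this.2 hW
  exact h1.sigma (fun t => (hf t).hasSum)

theorem fib_summable (X : G → T) (W : G → ℝ) (hW : Summable W) (t : T) :
    Summable (fun g : {g : G // X g = t} => W g.1) :=
  hW.subtype _

theorem map_hasSum (X : G → T) (μ : G →₀ ℝ) (t : T) :
    HasSum (fun g : {g : G // X g = t} => μ g.1) (μ.mapDomain X t) := by
  classical
  induction μ using Finsupp.induction_linear with
  | zero => simpa using hasSum_zero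
  | add f g hf hg =>
    rw [Finsupp.mapDomain_add]
    simpa using hf.add hg
  | single a b =>
    rw [Finsupp.mapDomain_single]
    by_cases h : X a = t
    · have := hasSum_single (f := fun g : {g : G // X g = t} => (Finsupp.single a b) g.1) ⟨a, h⟩
        (fun g hg => by
          have : a ≠ g.1 := by
            intro h'
            apply hg
            exact Subtype.ext h'.symm
          simp [Finsupp.single_apply, this])
      simpa [Finsupp.single_apply, h] using this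
    · have : (fun g : {g : G // X g = t} => (Finsupp.single a b) g.1) = fun _ => 0 := by
        funext g
        have : a ≠ g.1 := by
          rintro rfl
          exact h g.2
        simp [Finsupp.single_apply, this]
      rw [this]
      simpa [Finsupp.single_apply, h] using (hasSum_zero (α := ℝ) (β := {g : G // X g = t}))

theorem fs_hasSum (μ : G →₀ ℝ) : HasSum (fun g => μ g) (∑ g ∈ μ.support, μ g) :=
  hasSum_sum_of_ne_finset_zero (fun g hg => by simpa using hg)

theorem map_total (X : G → T) (μ : G →₀ ℝ) :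
    HasSum (fun t => μ.mapDomain X t) (∑ g ∈ μ.support, μ g) := by
  have h := fib_hasSum X (fun g => μ g) _ (fs_hasSum μ)
    (fun t => (map_hasSum X μ t).summable)
  have e : (fun t => ∑' g : {g : G // X g = t}, μ g.1) = fun t => μ.mapDomain X t := by
    funext t
    exact (map_hasSum X μ t).tsum_eq
  rwa [e] at h

/-- data of one coordinate -/
theorem one_coord (X : G → T) (W : G → ℝ) (Z : ℝ) (hW : HasSum W Z)
    (I : Set T) (hXI : ∀ g, X g ∈ I) (E : T → ℝ) (hE : ∀ t, 0 ≤ E t) (A δ : ℝ) (hA : 0 < A)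
    (hδ0 : 0 ≤ δ) (hδ : δ ≤ 1 / 2)
    (h : ∀ t ∈ I, |∑' g : {g : G // X g = t}, W g.1 - A * E t| ≤ δ * (A * E t)) :
    Summable (I.indicator E) ∧ |A * ∑' t, I.indicator E t - Z| ≤ 2 * δ * Z ∧
      Summable (fun t => |∑' g : {g : G // X g = t}, W g.1 - A * I.indicator E t|) ∧
      ∑' t, |∑' g : {g : G // X g = t}, W g.1 - A * I.indicator E t| ≤ 2 * δ * Z := by
  classical
  set M : T → ℝ := fun t => ∑' g : {g : G // X g = t}, W g.1 with hM
  set E' : T → ℝ := I.indicator E with hE'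
  have hMs : HasSum M Z := fib_hasSum X W Z hW (fib_summable X W hW.summable)
  have hE'0 : ∀ t, 0 ≤ E' t := fun t => Set.indicator_nonneg (fun t _ => hE t) t
  have h' : ∀ t, |M t - A * E' t| ≤ δ * (A * E' t) := by
    intro t
    by_cases ht : t ∈ I
    · rw [hE', Set.indicator_of_mem ht]
      exact h t ht
    · rw [hE', Set.indicator_of_notMem ht]
      have : IsEmpty {g : G // X g = t} := ⟨fun g => ht (g.2 ▸ hXI g.1)⟩
      simp [hM]
  have hle : ∀ t, E' t ≤ (2 / A) * M t := by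
    intro t
    have h1 := h' t
    have h2 : A * E' t - M t ≤ δ * (A * E' t) := by
      have := neg_abs_le (M t - A * E' t)
      linarith
    have h3 : 0 ≤ A * E' t := mul_nonneg hA.le (hE'0 t)
    have h4 : A * E' t ≤ 2 * M t := by nlinarith
    rw [div_mul_eq_mul_div, le_div_iff₀ hA]
    linarith
  have hsE : Summable E' := Summable.of_nonneg_of_le hE'0 hle (hMs.summable.mul_left _)
  set Θ := ∑' t, E' t with hΘ
  have hΘle : A * Θ ≤ 2 * Z := by
    have h1 : Θ ≤ ∑' t, (2 / A) * M t := hsE.tsum_le_tsum hle (hMs.summable.mul_left _)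
    rw [tsum_mul_left, hMs.tsum_eq, div_mul_eq_mul_div, le_div_iff₀ hA] at h1
    linarith
  have hsabs : Summable (fun t => |M t - A * E' t|) :=
    Summable.of_nonneg_of_le (fun t => abs_nonneg _) h' ((hsE.mul_left A).mul_left δ)
  have hsum : ∑' t, |M t - A * E' t| ≤ 2 * δ * Z := by
    calc ∑' t, |M t - A * E' t| ≤ ∑' t, δ * (A * E' t) :=
          hsabs.tsum_le_tsum h' ((hsE.mul_left A).mul_left δ)
      _ = δ * (A * Θ) := by rw [tsum_mul_left, tsum_mul_left]
      _ ≤ δ * (2 * Z) := mul_le_mul_of_nonneg_left hΘle hδ0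
      _ = 2 * δ * Z := by ring
  refine ⟨hsE, ?_, hsabs, hsum⟩
  have h5 : Z - A * Θ = ∑' t, (M t - A * E' t) := by
    rw [(hMs.summable).tsum_sub (hsE.mul_left A), hMs.tsum_eq, tsum_mul_left]
  rw [abs_sub_comm, h5]
  calc |∑' t, (M t - A * E' t)| ≤ ∑' t, |M t - A * E' t| := by
        have := norm_tsum_le_tsum_norm (f := fun t => M t - A * E' t) hsabs
        simpa [Real.norm_eq_abs] using this
    _ ≤ _ := hsum

theorem two_coord (X Y : G → T) (W : G → ℝ) (Z : ℝ) (hW : HasSum W Z)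
    (I : Set T) (hXI : ∀ g, X g ∈ I) (hYI : ∀ g, Y g ∈ I) (E : T → ℝ) (hE : ∀ t, 0 ≤ E t)
    (A B δ : ℝ) (hA : 0 < A) (hB : 0 < B)
    (hδ0 : 0 ≤ δ) (hδ : δ ≤ 1 / 2)
    (h : ∀ t ∈ I, |∑' g : {g : G // X g = t}, W g.1 - A * E t| ≤ δ * (A * E t))
    (h' : ∀ t ∈ I, |∑' g : {g : G // Y g = t}, W g.1 - B * E t| ≤ δ * (B * E t))
    (μ : G →₀ ℝ) (hμ : ∀ g, μ g ≤ W g) (R : ℝ) (hR : Z - ∑ g ∈ μ.support, μ g ≤ R) :
    TV (μ.mapDomain X) (μ.mapDomain Y) ≤ 8 * δ * Z + 2 * R := by
  classical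
  obtain ⟨e1, e2, e3, e4⟩ := one_coord X W Z hW I hXI E hE A δ hA hδ0 hδ h
  obtain ⟨_, f2, f3, f4⟩ := one_coord Y W Z hW I hYI E hE B δ hB hδ0 hδ h'
  set E' : T → ℝ := I.indicator E with hE'
  have hE'0 : ∀ t, 0 ≤ E' t := fun t => Set.indicator_nonneg (fun t _ => hE t) t
  set M : T → ℝ := fun t => ∑' g : {g : G // X g = t}, W g.1 with hM
  set N : T → ℝ := fun t => ∑' g : {g : G // Y g = t}, W g.1 with hN
  have hMs : HasSum M Z := fib_hasSum X W Z hW (fib_summable X W hW.summable)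
  have hNs : HasSum N Z := fib_hasSum Y W Z hW (fib_summable Y W hW.summable)
  have hmM : ∀ t, μ.mapDomain X t ≤ M t := by
    intro t
    rw [← (map_hasSum X μ t).tsum_eq]
    exact (map_hasSum X μ t).summable.tsum_le_tsum (fun g => hμ g.1)
      (fib_summable X W hW.summable t)
  have hnN : ∀ t, μ.mapDomain Y t ≤ N t := by
    intro t
    rw [← (map_hasSum Y μ t).tsum_eq]
    exact (map_hasSum Y μ t).summable.tsum_le_tsum (fun g => hμ g.1)
      (fib_summable Y W hW.summable t)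
  have hs1 := hMs.sub (map_total X μ)
  have hs2 := hNs.sub (map_total Y μ)
  set D : T → ℝ := fun t => (M t - μ.mapDomain X t) + (N t - μ.mapDomain Y t)
    + (|M t - A * E' t| + |A - B| * E' t + |N t - B * E' t|) with hD
  have hDs : Summable D := (hs1.summable.add hs2.summable).add
    ((e3.add (e1.mul_left _)).add f3)
  have hDt : ∑' t, D t ≤ 8 * δ * Z + 2 * R := by
    rw [hD, (hs1.summable.add hs2.summable).tsum_add ((e3.add (e1.mul_left _)).add f3),
      hs1.summable.tsum_add hs2.summable, (e3.add (e1.mul_left _)).tsum_add f3,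
      e3.tsum_add (e1.mul_left _), hs1.tsum_eq, hs2.tsum_eq, tsum_mul_left]
    have h7 : |A - B| * ∑' t, E' t ≤ 4 * δ * Z := by
      have h8 : 0 ≤ ∑' t, E' t := tsum_nonneg hE'0
      rw [← abs_of_nonneg h8, ← abs_mul]
      have h9 : (A - B) * ∑' t, E' t = (A * ∑' t, E' t - Z) - (B * ∑' t, E' t - Z) := by ring
      rw [h9]
      calc _ ≤ |A * ∑' t, E' t - Z| + |B * ∑' t, E' t - Z| := abs_sub _ _
        _ ≤ 4 * δ * Z := by linarith
    linarith
  have hpt : ∀ t, |(μ.mapDomain X - μ.mapDomain Y) t| ≤ D t := by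
    intro t
    rw [Finsupp.sub_apply]
    have k1 := hmM t
    have k2 := hnN t
    have k3 : |A * E' t - B * E' t| = |A - B| * E' t := by
      rw [← sub_mul, abs_mul, abs_of_nonneg (hE'0 t)]
    have k4 : |M t - N t| ≤ |M t - A * E' t| + |A - B| * E' t + |N t - B * E' t| := by
      have : M t - N t = (M t - A * E' t) + (A * E' t - B * E' t) - (N t - B * E' t) := by ring
      rw [this, ← k3]
      calc _ ≤ |(M t - A * E' t) + (A * E' t - B * E' t)| + |N t - B * E' t| := abs_sub _ _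
        _ ≤ _ := by gcongr; exact abs_add_le _ _
    have k5 : μ.mapDomain X t - μ.mapDomain Y t
        = (M t - N t) - (M t - μ.mapDomain X t) + (N t - μ.mapDomain Y t) := by ring
    rw [k5, hD]
    simp only
    have k6 := abs_le.1 (le_refl |M t - N t|)
    rw [abs_le]
    constructor <;> linarith [k6.1, k6.2]
  have hD0 : ∀ t, 0 ≤ D t := fun t => (abs_nonneg _).trans (hpt t)
  calc TV (μ.mapDomain X) (μ.mapDomain Y)
      = ∑ t ∈ (μ.mapDomain X - μ.mapDomain Y).support, |(μ.mapDomain X - μ.mapDomain Y) t| := rfl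
    _ ≤ ∑ t ∈ (μ.mapDomain X - μ.mapDomain Y).support, D t :=
        Finset.sum_le_sum (fun t _ => hpt t)
    _ ≤ ∑' t, D t := hDs.sum_le_tsum _ (fun t _ => hD0 t)
    _ ≤ _ := hDt

end abs

section main
variable {K : Type} [Field K] [NumberField K] {F : Type} [Fintype F]

theorem QF_nonneg (τ : F → InfinitePlace K → ℝ) (hτ : ∀ l w, 0 < τ l w) (g : F → 𝓞 K) :
    0 ≤ QF τ g :=
  Finset.sum_nonneg (fun l _ => Finset.sum_nonneg (fun w _ =>
    div_nonneg (sq_nonneg _) (hτ l w).le))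

theorem ht_XX {n : ℕ} (ζ : F → Fin n → 𝓞 K) (τ : F → InfinitePlace K → ℝ)
    (hτ : ∀ l w, 0 < τ l w) (g : F → 𝓞 K) (s : ℝ) (hs : 0 < s) (hg : QF τ g ≤ 1 / s ^ 2)
    (i : Fin n) :
    ht (XX ζ g i) ≤ (∑ w : InfinitePlace K, ∑ l, w (ζ l i : K) * Real.sqrt (τ l w)) / s := by
  unfold ht XX
  rw [Finset.sum_div]
  refine Finset.sum_le_sum (fun w _ => ?_)
  have hgl : ∀ l, w (g l : K) ≤ Real.sqrt (τ l w) / s := by
    intro l
    have h1 : (w (g l : K)) ^ 2 / τ l w ≤ 1 / s ^ 2 := by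
      refine le_trans ?_ hg
      unfold QF
      calc (w (g l : K)) ^ 2 / τ l w ≤ ∑ w' : InfinitePlace K, (w' (g l : K)) ^ 2 / τ l w' :=
            Finset.single_le_sum (f := fun w' : InfinitePlace K => (w' (g l : K)) ^ 2 / τ l w')
              (fun w' _ => div_nonneg (sq_nonneg _) (hτ l w').le) (Finset.mem_univ w)
        _ ≤ _ := Finset.single_le_sum
            (f := fun l => ∑ w' : InfinitePlace K, (w' (g l : K)) ^ 2 / τ l w')
            (fun l _ => Finset.sum_nonneg (fun w' _ => div_nonneg (sq_nonneg _) (hτ l w').le))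
            (Finset.mem_univ l)
    have h2 : (w (g l : K)) ^ 2 ≤ (Real.sqrt (τ l w) / s) ^ 2 := by
      rw [div_pow, Real.sq_sqrt (hτ l w).le]
      rw [div_le_div_iff₀ (hτ l w) (by positivity)] at h1
      rw [le_div_iff₀ (by positivity)]
      linarith
    exact le_of_sq_le_sq h2 (by positivity)
  calc w ((∑ l, ζ l i * g l : 𝓞 K) : K) = w (∑ l, (ζ l i : K) * (g l : K)) := by push_cast; rfl
    _ ≤ ∑ l, w ((ζ l i : K) * (g l : K)) := by
        have := w.embedding
        rw [← InfinitePlace.norm_embedding_eq, map_sum]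
        refine (norm_sum_le _ _).trans (le_of_eq ?_)
        refine Finset.sum_congr rfl (fun l _ => ?_)
        rw [InfinitePlace.norm_embedding_eq]
    _ ≤ ∑ l, w (ζ l i : K) * Real.sqrt (τ l w) / s := by
        refine Finset.sum_le_sum (fun l _ => ?_)
        rw [map_mul, mul_div_assoc]
        exact mul_le_mul_of_nonneg_left (hgl l) (apply_nonneg _ _)
    _ = _ := by rw [Finset.sum_div]

theorem t_GAU : S_GAU := by
  intro hTH1 hTHM hIND hSPAN hFIB hMASS K _ _ n F _ ζ τ I hτ h1 hI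
  classical
  obtain ⟨C₁, B₁, hC₁, hZ⟩ := hMASS hTH1 hTHM hIND K F τ hτ
  have hF : ∀ i : Fin n, ∃ c C : ℝ, 0 < c ∧ 0 < C ∧ ∀ s : ℝ, 0 < s → s ≤ 1 → ∃ A : ℝ, 0 < A ∧
      ∀ t ∈ I,
        |∑' g : {g : F → 𝓞 K // ∑ l, ζ l i * g l = t}, Real.exp (-s * QF τ g.1)
            - A * Real.exp (-s * NF t)|
          ≤ C * Real.exp (-c / s) * (A * Real.exp (-s * NF t)) := by
    intro i
    obtain ⟨c, C, hc, hC, h⟩ := hFIB hTH1 hTHM hIND hSPAN K F (fun l => ζ l i) τ hτ (h1 i)
    refine ⟨c, C, hc, hC, fun s hs hs' => ?_⟩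
    obtain ⟨A, hA, h⟩ := h s hs hs'
    refine ⟨A, hA, fun t ht => ?_⟩
    rw [← hI i] at ht
    exact (h t ht).2
  choose ci Ci hci hCi hF using hF
  -- common constants
  set c₀ : ℝ := (1 + ∑ i, (ci i)⁻¹)⁻¹ with hc₀d
  have hsumpos : (0 : ℝ) < 1 + ∑ i, (ci i)⁻¹ := by
    have : 0 ≤ ∑ i, (ci i)⁻¹ := Finset.sum_nonneg (fun i _ => (inv_pos.2 (hci i)).le)
    linarith
  have hc₀ : 0 < c₀ := inv_pos.2 hsumpos
  have hc₀i : ∀ i, c₀ ≤ ci i := by
    intro i
    rw [hc₀d, inv_le_comm₀ hsumpos (hci i)]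
    have : (ci i)⁻¹ ≤ ∑ i, (ci i)⁻¹ :=
      Finset.single_le_sum (f := fun i => (ci i)⁻¹) (fun i _ => (inv_pos.2 (hci i)).le)
        (Finset.mem_univ i)
    linarith
  set C₂ : ℝ := 1 + ∑ i, Ci i with hC₂d
  have hC₂ : 0 < C₂ := by
    have : 0 ≤ ∑ i, Ci i := Finset.sum_nonneg (fun i _ => (hCi i).le)
    linarith
  have hC₂i : ∀ i, Ci i ≤ C₂ := by
    intro i
    have : Ci i ≤ ∑ i, Ci i :=
      Finset.single_le_sum (f := Ci) (fun i _ => (hCi i).le) (Finset.mem_univ i)
    linarith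
  set C₃ : ℝ := ∑ i : Fin n, ∑ w : InfinitePlace K, ∑ l, w (ζ l i : K) * Real.sqrt (τ l w) with hC₃d
  have hC₃nn : ∀ i : Fin n, 0 ≤ ∑ w : InfinitePlace K, ∑ l, w (ζ l i : K) * Real.sqrt (τ l w) :=
    fun i => Finset.sum_nonneg (fun w _ => Finset.sum_nonneg (fun l _ =>
      mul_nonneg (apply_nonneg _ _) (Real.sqrt_nonneg _)))
  have hC₃ : 0 ≤ C₃ := Finset.sum_nonneg (fun i _ => hC₃nn i)
  set c : ℝ := min c₀ (1 / 2) with hcd
  have hc : 0 < c := lt_min hc₀ (by norm_num)
  set C : ℝ := C₃ + (8 * C₂ * C₁ + 2 * (C₁ * 2 ^ B₁)) with hCd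
  have hC : 0 < C := by positivity
  refine ⟨c, C, B₁, hc, hC, ?_⟩
  intro S
  set M : ℝ := 1 + ∑ g ∈ S, QF τ g with hMd
  have hM : 1 ≤ M := by
    have : 0 ≤ ∑ g ∈ S, QF τ g := Finset.sum_nonneg (fun g _ => QF_nonneg τ hτ g)
    linarith
  have hMg : ∀ g ∈ S, QF τ g ≤ M := by
    intro g hg
    have : QF τ g ≤ ∑ g ∈ S, QF τ g :=
      Finset.single_le_sum (f := fun g => QF τ g) (fun g _ => QF_nonneg τ hτ g) hg
    linarith
  have hlog : 0 < Real.log 2 := Real.log_pos (by norm_num)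
  refine ⟨min (min 1 (c₀ / (2 * C₂))) (Real.log 2 / M),
    lt_min (lt_min one_pos (by positivity)) (by positivity), ?_⟩
  intro s hs0 hs
  have hs1 : s ≤ 1 := hs.trans ((min_le_left _ _).trans (min_le_left _ _))
  have hs2 : s ≤ c₀ / (2 * C₂) := hs.trans ((min_le_left _ _).trans (min_le_right _ _))
  have hs3 : s ≤ Real.log 2 / M := hs.trans (min_le_right _ _)
  obtain ⟨hWs, hWt⟩ := hZ s hs0 hs1
  set W : (F → 𝓞 K) → ℝ := fun g => Real.exp (-s * QF τ g) with hWd
  set Z : ℝ := ∑' g, W g with hZd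
  have hWsum : HasSum W Z := hWs.hasSum
  have hZ0 : 0 ≤ Z := tsum_nonneg (fun g => (Real.exp_pos _).le)
  -- finite truncation
  have hfin : {g : F → 𝓞 K | QF τ g ≤ 1 / s ^ 2}.Finite := by
    have h2 := hWs.tendsto_cofinite_zero
    have h3 := h2.eventually (gt_mem_nhds (Real.exp_pos (-(1 / s))))
    rw [Filter.eventually_cofinite] at h3
    refine h3.subset ?_
    intro g hg
    simp only [Set.mem_setOf_eq, not_lt] at hg ⊢
    apply Real.exp_le_exp.2
    have : s * QF τ g ≤ s * (1 / s ^ 2) := mul_le_mul_of_nonneg_left hg hs0.le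
    have e : s * (1 / s ^ 2) = 1 / s := by field_simp
    linarith
  set U : Finset (F → 𝓞 K) := hfin.toFinset with hUd
  have hmemU : ∀ g, g ∈ U ↔ QF τ g ≤ 1 / s ^ 2 := by
    intro g
    rw [hUd, Set.Finite.mem_toFinset]
    rfl
  set μ : (F → 𝓞 K) →₀ ℝ := Finsupp.onFinset U (fun g => if g ∈ U then W g else 0)
    (fun g hg => by
      by_contra hcon
      rw [if_neg hcon] at hg
      exact hg rfl) with hμd
  have hμ1 : ∀ g ∈ U, μ g = W g := fun g hg => by
    rw [hμd, Finsupp.onFinset_apply, if_pos hg]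
  have hμ0 : ∀ g, g ∉ U → μ g = 0 := fun g hg => by
    rw [hμd, Finsupp.onFinset_apply, if_neg hg]
  have hWpos : ∀ g, 0 < W g := fun g => Real.exp_pos _
  have hμle : ∀ g, μ g ≤ W g := by
    intro g
    by_cases hg : g ∈ U
    · rw [hμ1 g hg]
    · rw [hμ0 g hg]; exact (hWpos g).le
  -- truncation error
  have hR : Z - ∑ g ∈ μ.support, μ g ≤ Real.exp (-(1 / 2) / s) * (C₁ * (2 ^ B₁ * (s⁻¹) ^ B₁)) := by
    obtain ⟨hVs, hVt⟩ := hZ (s / 2) (by positivity) (by linarith)
    have hd := hWsum.sub (fs_hasSum μ)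
    rw [← hd.tsum_eq]
    have hpt : ∀ g, W g - μ g ≤ Real.exp (-(1 / 2) / s) * Real.exp (-(s / 2) * QF τ g) := by
      intro g
      by_cases hg : g ∈ U
      · rw [hμ1 g hg, sub_self]
        positivity
      · rw [hμ0 g hg, sub_zero, ← Real.exp_add]
        apply Real.exp_le_exp.2
        rw [hmemU] at hg
        push Not at hg
        have : s * (1 / s ^ 2) ≤ s * QF τ g := mul_le_mul_of_nonneg_left hg.le hs0.le
        have e : s * (1 / s ^ 2) = 1 / s := by field_simp
        have e2 : -(1 / 2) / s = -(1 / s) / 2 := by ring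
        rw [e2]
        linarith
    calc ∑' g, (W g - μ g) ≤ ∑' g, Real.exp (-(1 / 2) / s) * Real.exp (-(s / 2) * QF τ g) :=
          hd.summable.tsum_le_tsum hpt (hVs.mul_left _)
      _ = Real.exp (-(1 / 2) / s) * ∑' g, Real.exp (-(s / 2) * QF τ g) := tsum_mul_left
      _ ≤ Real.exp (-(1 / 2) / s) * (C₁ * ((s / 2)⁻¹) ^ B₁) :=
          mul_le_mul_of_nonneg_left hVt (Real.exp_pos _).le
      _ = _ := by
          rw [inv_div, div_pow, inv_pow, div_eq_mul_inv (2 ^ B₁ : ℝ)]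
  refine ⟨μ, ?_, ?_, ?_, ?_⟩
  · intro g
    by_cases hg : g ∈ U
    · rw [hμ1 g hg]; exact (hWpos g).le
    · rw [hμ0 g hg]
  · intro g hg
    have hMs : M * s ≤ Real.log 2 := by
      rw [le_div_iff₀ (by linarith)] at hs3
      linarith
    have hl2 : Real.log 2 ≤ 1 := by
      have := Real.log_le_sub_one_of_pos (show (0 : ℝ) < 2 by norm_num)
      linarith
    have hQ : QF τ g ≤ 1 / s ^ 2 := by
      rw [le_div_iff₀ (by positivity)]
      have h4 : QF τ g * s ≤ 1 := by
        have := mul_le_mul_of_nonneg_right (hMg g hg) hs0.le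
        linarith
      calc QF τ g * s ^ 2 = (QF τ g * s) * s := by ring
        _ ≤ 1 * 1 := mul_le_mul h4 hs1 hs0.le one_pos.le
        _ = 1 := one_mul 1
    rw [hμ1 g ((hmemU g).2 hQ), hWd]
    have h4 : QF τ g * s ≤ Real.log 2 := by
      have := mul_le_mul_of_nonneg_right (hMg g hg) hs0.le
      linarith
    have h5 : Real.exp (-Real.log 2) = 1 / 2 := by
      rw [Real.exp_neg, Real.exp_log (by norm_num)]
      norm_num
    rw [← h5]
    apply Real.exp_le_exp.2
    linarith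
  · intro g hg i
    have hgU : g ∈ U := by
      by_contra hcon
      exact (Finsupp.mem_support_iff.1 hg) (hμ0 g hcon)
    refine (ht_XX ζ τ hτ g s hs0 ((hmemU g).1 hgU) i).trans ?_
    apply div_le_div_of_nonneg_right _ hs0.le
    have : ∑ w : InfinitePlace K, ∑ l, w (ζ l i : K) * Real.sqrt (τ l w) ≤ C₃ :=
      Finset.single_le_sum
        (f := fun i : Fin n => ∑ w : InfinitePlace K, ∑ l, w (ζ l i : K) * Real.sqrt (τ l w))
        (fun i _ => hC₃nn i) (Finset.mem_univ i)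
    have : 0 ≤ 8 * C₂ * C₁ + 2 * (C₁ * 2 ^ B₁) := by positivity
    linarith
  · intro i j
    set δ : ℝ := C₂ * Real.exp (-c₀ / s) with hδd
    have hδ0 : 0 ≤ δ := by positivity
    have hδ : δ ≤ 1 / 2 := by
      have h6 : Real.exp (-c₀ / s) ≤ s / c₀ := by
        have h7 : c₀ / s ≤ Real.exp (c₀ / s) := by
          have := Real.add_one_le_exp (c₀ / s)
          linarith
        rw [neg_div, Real.exp_neg]
        calc (Real.exp (c₀ / s))⁻¹ ≤ (c₀ / s)⁻¹ := by
              apply inv_anti₀ (by positivity) h7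
          _ = s / c₀ := by rw [inv_div]
      calc δ ≤ C₂ * (s / c₀) := mul_le_mul_of_nonneg_left h6 hC₂.le
        _ ≤ C₂ * ((c₀ / (2 * C₂)) / c₀) := by gcongr
        _ = 1 / 2 := by field_simp
    have hXI : ∀ (i : Fin n) (g : F → 𝓞 K), XX ζ g i ∈ (I : Set (𝓞 K)) := by
      intro i g
      rw [SetLike.mem_coe, ← hI i]
      unfold XX
      refine Ideal.sum_mem _ (fun l _ => ?_)
      exact Ideal.mul_mem_right _ _ (Ideal.subset_span ⟨l, rfl⟩)
    have hco : ∀ i : Fin n, ∃ A : ℝ, 0 < A ∧ ∀ t ∈ (I : Set (𝓞 K)),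
        |∑' g : {g : F → 𝓞 K // XX ζ g i = t}, W g.1 - A * Real.exp (-s * NF t)|
          ≤ δ * (A * Real.exp (-s * NF t)) := by
      intro i
      obtain ⟨A, hA, h⟩ := hF i s hs0 hs1
      refine ⟨A, hA, fun t ht => ?_⟩
      refine (h t ht).trans ?_
      apply mul_le_mul_of_nonneg_right _ (by positivity)
      apply mul_le_mul (hC₂i i) _ (Real.exp_pos _).le hC₂.le
      apply Real.exp_le_exp.2
      apply div_le_div_of_nonneg_right _ hs0.le
      linarith [hc₀i i]
    obtain ⟨A, hA, hA'⟩ := hco i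
    obtain ⟨B, hB, hB'⟩ := hco j
    have key := two_coord (fun g => XX ζ g i) (fun g => XX ζ g j) W Z hWsum (I : Set (𝓞 K))
      (hXI i) (hXI j) (fun t => Real.exp (-s * NF t)) (fun t => (Real.exp_pos _).le) A B δ hA hB
      hδ0 hδ hA' hB' μ hμle _ hR
    refine key.trans ?_
    have h8 : Real.exp (-c₀ / s) ≤ Real.exp (-c / s) := by
      apply Real.exp_le_exp.2
      apply div_le_div_of_nonneg_right _ hs0.le
      linarith [min_le_left c₀ (1 / 2)]
    have h9 : Real.exp (-(1 / 2) / s) ≤ Real.exp (-c / s) := by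
      apply Real.exp_le_exp.2
      apply div_le_div_of_nonneg_right _ hs0.le
      linarith [min_le_right c₀ (1 / 2)]
    calc 8 * δ * Z + 2 * (Real.exp (-(1 / 2) / s) * (C₁ * (2 ^ B₁ * (s⁻¹) ^ B₁)))
        ≤ 8 * (C₂ * Real.exp (-c / s)) * (C₁ * (s⁻¹) ^ B₁)
          + 2 * (Real.exp (-c / s) * (C₁ * (2 ^ B₁ * (s⁻¹) ^ B₁))) := by
          rw [hδd]
          gcongr
      _ = (8 * C₂ * C₁ + 2 * (C₁ * 2 ^ B₁)) * (s⁻¹) ^ B₁ * Real.exp (-c / s) := by ring
      _ ≤ C * (s⁻¹) ^ B₁ * Real.exp (-c / s) := by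
          gcongr
          linarith

end main

end Q65.SY
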